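import Pool.Agent.W875.GE.Spec

/-! Part N1 of project GE (for helper875): the determinant of `1 - μ ∑ M_k ⊗ Z_k` is `1`. -/

set_option autoImplicit false

namespace Pool.Agent.W343.GE

open W875.GE

universe u

section

variable {K : Type u} [Field K] {n : ℕ}

/-- The block matrix of the values of the entries. -/
def bl {L : Type u} [CommRing L] [Algebra K L] (r : ℕ) {q : ℕ}
    (ψ : FA K n →ₐ[K] Matrix (Fin q) (Fin q) L) :
    Matrix (Fin r) (Fin r) (FA K n) →+* Matrix (Fin r × Fin q) (Fin r × Fin q) L :=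
  (Matrix.compRingEquiv (Fin r) (Fin q) L).toRingHom.comp ψ.toRingHom.mapMatrix

theorem bl_apply {L : Type u} [CommRing L] [Algebra K L] (r : ℕ) {q : ℕ}
    (ψ : FA K n →ₐ[K] Matrix (Fin q) (Fin q) L) (P : Matrix (Fin r) (Fin r) (FA K n))
    (i j : Fin r × Fin q) : bl r ψ P i j = ψ (P i.1 j.1) i.2 j.2 := rfl

/-- The matrix `1 - ∑ M_j θ(x_j)`. -/
noncomputable def PP (θ : FA K n →ₐ[K] FA K n) {r : ℕ} (M : Fin n → Matrix (Fin r) (Fin r) K) :
    Matrix (Fin r) (Fin r) (FA K n) :=
  1 - ∑ j, (M j).map (fun c => c • θ (FreeAlgebra.ι K j))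

theorem bl_PP {L : Type u} [CommRing L] [Algebra K L] {q : ℕ}
    (ψ : FA K n →ₐ[K] Matrix (Fin q) (Fin q) L) (θ : FA K n →ₐ[K] FA K n) {r : ℕ}
    (M : Fin n → Matrix (Fin r) (Fin r) K) (i j : Fin r × Fin q) :
    bl r ψ (PP θ M) i j = (if i = j then (1 : L) else 0)
      - ∑ k, algebraMap K L (M k i.1 j.1) * ψ (θ (FreeAlgebra.ι K k)) i.2 j.2 := by
  rw [bl_apply]
  unfold PP
  rw [Matrix.sub_apply, map_sub, Matrix.sub_apply]
  congr 1
  · rw [Matrix.one_apply]
    by_cases h : i.1 = j.1
    · rw [if_pos h, map_one, Matrix.one_apply]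
      by_cases h2 : i.2 = j.2
      · rw [if_pos h2, if_pos (Prod.ext h h2)]
      · rw [if_neg h2, if_neg (fun e => h2 (by rw [e]))]
    · rw [if_neg h, map_zero, if_neg (fun e => h (by rw [e]))]
      rfl
  · rw [Matrix.sum_apply, map_sum, Matrix.sum_apply]
    refine Finset.sum_congr rfl fun k _ => ?_
    rw [Matrix.map_apply, map_smul, Matrix.smul_apply, Algebra.smul_def]

/-- `lift 0` kills the words of positive length. -/
theorem lift_zero_Ord {B : Type u} [Ring B] [Algebra K B] {m : ℕ} (hm : 1 ≤ m) (a : FA K n)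
    (ha : a ∈ Ord K n m) : FreeAlgebra.lift K (fun _ : Fin n => (0 : B)) a = 0 := by
  unfold W875.GE.Ord at ha
  induction ha using Submodule.span_induction with
  | mem x hx =>
    obtain ⟨w, hw, rfl⟩ := hx
    cases w with
    | nil => simp at hw; omega
    | cons i w => simp [wd]
  | zero => simp
  | add x y _ _ hx hy => rw [map_add, hx, hy, add_zero]
  | smul c x _ hx => rw [map_smul, hx, smul_zero]

theorem lift_zero_theta {B : Type u} [Ring B] [Algebra K B] (θ : FA K n →ₐ[K] FA K n)
    (h1 : ∀ i, θ (FreeAlgebra.ι K i) - FreeAlgebra.ι K i ∈ Ord K n 2) (i : Fin n) :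
    FreeAlgebra.lift K (fun _ : Fin n => (0 : B)) (θ (FreeAlgebra.ι K i)) = 0 := by
  have h := lift_zero_Ord (B := B) (by norm_num) _ (h1 i)
  rw [map_sub, FreeAlgebra.lift_ι_apply, sub_zero] at h
  exact h

/-- Step 1. -/
theorem det_bl_eq_one (θ : FA K n →ₐ[K] FA K n)
    (h1 : ∀ i, θ (FreeAlgebra.ι K i) - FreeAlgebra.ι K i ∈ Ord K n 2)
    (r : ℕ) (M : Fin n → Matrix (Fin r) (Fin r) K) (T : Matrix (Fin r) (Fin r) (FA K n))
    (hT : PP θ M * T = 1) (R : Type u) [CommRing R] [IsDomain R] [Algebra K R] (q : ℕ)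
    (X : Fin n → Matrix (Fin q) (Fin q) R) :
    Matrix.det (bl r (FreeAlgebra.lift K X) (PP θ M)) = 1 := by
  set ψ : FA K n →ₐ[K] Matrix (Fin q) (Fin q) (Polynomial R) :=
    FreeAlgebra.lift K (fun i => (X i).map (fun c => Polynomial.monomial 1 c)) with hψ
  have hev : ∀ c : R, ∀ a : FA K n, (ψ a).map (Polynomial.eval c) =
      FreeAlgebra.lift K (fun i => c • X i) a := by
    intro c a
    have : ((Polynomial.aeval c : Polynomial R →ₐ[R] R).restrictScalars K).mapMatrix.comp ψ =
        FreeAlgebra.lift K (fun i => c • X i) := by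
      apply FreeAlgebra.hom_ext
      funext i
      simp only [hψ, Function.comp_apply, AlgHom.comp_apply, FreeAlgebra.lift_ι_apply]
      ext a b
      simp [mul_comm]
    rw [← this]
    ext a b
    simp
  have hunit : IsUnit (Matrix.det (bl r ψ (PP θ M))) := by
    refine IsUnit.of_mul_eq_one (Matrix.det (bl r ψ T)) ?_
    rw [← Matrix.det_mul, ← map_mul, hT, map_one, Matrix.det_one]
  obtain ⟨c, hc, hcd⟩ := Polynomial.isUnit_iff.1 hunit
  have hdet : ∀ t : R, Matrix.det (bl r (FreeAlgebra.lift K (fun i => t • X i)) (PP θ M)) = c := by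
    intro t
    have h2 : (Polynomial.evalRingHom t) (Matrix.det (bl r ψ (PP θ M))) = c := by
      rw [← hcd]; simp
    rw [RingHom.map_det] at h2
    rw [← h2]
    congr 1
    ext i j
    rw [RingHom.mapMatrix_apply, Matrix.map_apply, bl_apply, bl_apply, ← hev t]
    rfl
  have h0 := hdet 0
  have h11 := hdet 1
  simp only [one_smul] at h11
  rw [h11, ← h0]
  have : bl r (FreeAlgebra.lift K (fun i => (0 : R) • X i)) (PP θ M) = 1 := by
    ext i j
    rw [bl_PP, Matrix.one_apply]
    have h3 : ∀ k, FreeAlgebra.lift K (fun i => (0 : R) • X i) (θ (FreeAlgebra.ι K k)) = 0 := by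
      intro k
      have := lift_zero_theta (B := Matrix (Fin q) (Fin q) R) θ h1 k
      rw [← this]
      congr 2
      funext i
      rw [zero_smul]
    rw [Finset.sum_eq_zero, sub_zero]
    intro k _
    rw [h3 k, Matrix.zero_apply, mul_zero]
  rw [this, Matrix.det_one]

theorem wd_smul {R : Type u} [CommRing R] {q : ℕ} (c : R)
    (X : Fin n → Matrix (Fin q) (Fin q) R) (w : List (Fin n)) :
    wd (fun i => c • X i) w = c ^ w.length • wd X w := by
  induction w with
  | nil => simp [wd]
  | cons i w ih =>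
    have h1 : wd (fun i => c • X i) (i :: w) = (c • X i) * wd (fun i => c • X i) w := by
      simp [wd]
    have h2 : wd X (i :: w) = X i * wd X w := by simp [wd]
    rw [h1, ih, h2, smul_mul_smul_comm, List.length_cons, pow_succ']

/-- The value of an element of order `m` at a multiple of `c` is a multiple of `c ^ m`. -/
theorem lift_Ord {R : Type u} [CommRing R] [Algebra K R] {q : ℕ} (c : R)
    (X : Fin n → Matrix (Fin q) (Fin q) R) (m : ℕ) (a : FA K n) (ha : a ∈ Ord K n m) :
    ∀ i j, c ^ m ∣ FreeAlgebra.lift K (fun i => c • X i) a i j := by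
  unfold W875.GE.Ord at ha
  induction ha using Submodule.span_induction with
  | mem x hx =>
    obtain ⟨w, hw, rfl⟩ := hx
    intro i j
    have h1 : FreeAlgebra.lift K (fun i => c • X i) (wd (FreeAlgebra.ι K) w)
        = wd (fun i => c • X i) w := by
      unfold wd
      rw [map_list_prod, List.map_map]
      congr 2
      funext k
      simp
    rw [h1, wd_smul, Matrix.smul_apply, smul_eq_mul]
    exact (pow_dvd_pow c hw).mul_right _
  | zero => intro i j; simp
  | add x y _ _ hx hy =>
    intro i j
    rw [map_add, Matrix.add_apply]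
    exact dvd_add (hx i j) (hy i j)
  | smul t x _ hx =>
    intro i j
    rw [map_smul, Matrix.smul_apply, Algebra.smul_def]
    exact (hx i j).mul_left _

end

theorem partN1 : PartN1.{u} := by
  intro K _ n θ hθ r M T hT C _ _ _ q Z
  set D : Polynomial C := Matrix.det (Matrix.of fun (i j : Fin r × Fin q) =>
    (if i = j then (1 : Polynomial C) else 0)
    - ∑ k, Polynomial.monomial 1 (algebraMap K C (M k i.1 j.1) * Z k i.2 j.2)) with hD
  have key : ∀ m : ℕ, (Polynomial.X : Polynomial C) ^ m ∣ D - 1 := by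
    intro m
    obtain ⟨α, hα⟩ := hθ.lim (m + 1)
    set ψ : FA K n →ₐ[K] Matrix (Fin q) (Fin q) (Polynomial C) :=
      FreeAlgebra.lift K (fun i => (Z i).map (fun c => Polynomial.monomial 1 c)) with hψ
    -- the values of `α⁻¹ x_i` are multiples of `X`
    have hX : ∀ i, ∃ Y : Matrix (Fin q) (Fin q) (Polynomial C),
        ψ (α.symm (FreeAlgebra.ι K i)) = (Polynomial.X : Polynomial C) • Y := by
      intro i
      have hcomp : (FreeAlgebra.lift K (fun _ : Fin n => (0 : Matrix (Fin q) (Fin q) C))).comp
          (α : FA K n →ₐ[K] FA K n) = FreeAlgebra.lift K (fun _ : Fin n => 0) := by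
        apply FreeAlgebra.hom_ext
        funext k
        simp only [Function.comp_apply, AlgHom.comp_apply, FreeAlgebra.lift_ι_apply]
        have h3 := lift_zero_Ord (B := Matrix (Fin q) (Fin q) C) (Nat.le_add_left 1 m) _ (hα k)
        rw [map_sub, lift_zero_theta θ hθ.one k, sub_zero] at h3
        exact h3
      have h4 : FreeAlgebra.lift K (fun _ : Fin n => (0 : Matrix (Fin q) (Fin q) C))
          (α.symm (FreeAlgebra.ι K i)) = 0 := by
        rw [← hcomp, AlgHom.comp_apply]
        simp
      have h5 : ∀ a : FA K n, (ψ a).map (Polynomial.eval 0) =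
          FreeAlgebra.lift K (fun _ : Fin n => (0 : Matrix (Fin q) (Fin q) C)) a := by
        intro a
        have : ((Polynomial.aeval (0 : C) :
            Polynomial C →ₐ[C] C).restrictScalars K).mapMatrix.comp ψ =
            FreeAlgebra.lift K (fun _ : Fin n => (0 : Matrix (Fin q) (Fin q) C)) := by
          apply FreeAlgebra.hom_ext
          funext k
          simp only [hψ, Function.comp_apply, AlgHom.comp_apply, FreeAlgebra.lift_ι_apply]
          ext a b
          simp
        rw [← this]
        ext a b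
        simp
      have h6 : ∀ a b, (Polynomial.X : Polynomial C) ∣ ψ (α.symm (FreeAlgebra.ι K i)) a b := by
        intro a b
        rw [Polynomial.X_dvd_iff, Polynomial.coeff_zero_eq_eval_zero]
        have h7 := congrFun (congrFun (h5 (α.symm (FreeAlgebra.ι K i))) a) b
        rw [h4] at h7
        exact h7
      choose Y hY using h6
      exact ⟨Matrix.of Y, by ext1 a b; rw [Matrix.smul_apply, hY a b]; rfl⟩
    choose Y hY using hX
    have hψ0 : ψ.comp (α.symm : FA K n →ₐ[K] FA K n) =
        FreeAlgebra.lift K (fun i => (Polynomial.X : Polynomial C) • Y i) := by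
      apply FreeAlgebra.hom_ext
      funext i
      simp only [Function.comp_apply, AlgHom.comp_apply, FreeAlgebra.lift_ι_apply]
      exact hY i
    have hdet := det_bl_eq_one θ hθ.one r M T hT (Polynomial C) q
      (fun i => (Polynomial.X : Polynomial C) • Y i)
    have hval : ∀ k a b, (Polynomial.X : Polynomial C) ^ m ∣
        Polynomial.monomial 1 (Z k a b) -
        FreeAlgebra.lift K (fun i => (Polynomial.X : Polynomial C) • Y i)
          (θ (FreeAlgebra.ι K k)) a b := by
      intro k a b
      have h1 := lift_Ord (K := K) (n := n) (Polynomial.X : Polynomial C) Y (m + 1) _ (hα k) a b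
      rw [map_sub, Matrix.sub_apply] at h1
      have h2 : FreeAlgebra.lift K (fun i => (Polynomial.X : Polynomial C) • Y i)
          (α (FreeAlgebra.ι K k)) = (Z k).map (fun c => Polynomial.monomial 1 c) := by
        rw [← hψ0, AlgHom.comp_apply]
        simp [hψ]
      rw [h2, Matrix.map_apply] at h1
      exact (pow_dvd_pow _ (Nat.le_succ m)).trans h1
    set I : Ideal (Polynomial C) := Ideal.span {(Polynomial.X : Polynomial C) ^ m} with hI
    have h8 : Ideal.Quotient.mk I D = Ideal.Quotient.mk I 1 := by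
      rw [← hdet, hD, RingHom.map_det, RingHom.map_det]
      congr 1
      ext i j
      rw [RingHom.mapMatrix_apply, RingHom.mapMatrix_apply, Matrix.map_apply, Matrix.map_apply,
        bl_PP, Matrix.of_apply, map_sub, map_sub]
      congr 1
      rw [map_sum, map_sum]
      refine Finset.sum_congr rfl fun k _ => ?_
      rw [Ideal.Quotient.eq, hI, Ideal.mem_span_singleton]
      have h9 : Polynomial.monomial 1 (algebraMap K C (M k i.1 j.1) * Z k i.2 j.2) =
          algebraMap K (Polynomial C) (M k i.1 j.1) * Polynomial.monomial 1 (Z k i.2 j.2) := by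
        rw [← Polynomial.C_mul_monomial]
        rfl
      rw [h9, ← mul_sub]
      exact (hval k i.2 j.2).mul_left _
    rw [Ideal.Quotient.eq, hI, Ideal.mem_span_singleton] at h8
    exact h8
  have h2 : D - 1 = 0 := by
    ext d
    have := (Polynomial.X_pow_dvd_iff.1 (key (d + 1))) d (Nat.lt_succ_self d)
    rw [this, Polynomial.coeff_zero]
  exact sub_eq_zero.1 h2

end Pool.Agent.W343.GE
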